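import Pool.Agent.MU74.Coef

/-!
# Bounds for Hecke eigenvalues and their Dirichlet inverse from the bound of Hasse
-/

set_option autoImplicit false

open Finset

namespace Pool.Agent.MU66

variable {N : ℕ} {a : ℕ → ℤ}

theorem hasse_local (hh : ∀ n : ℕ, |(a n : ℝ)| ≤ n.divisors.card * √(n : ℝ)) {l : ℕ}
    (hl : l.Prime) (k : ℕ) :
    |(a (l ^ k) : ℝ)| ≤ ((k : ℝ) + 1) * ((l : ℝ) ^ k) ^ (1 / 2 : ℝ) := by
  have h1 := hh (l ^ k)
  rw [Nat.divisors_prime_pow hl, card_map, card_range, Real.sqrt_eq_rpow] at h1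
  push_cast at h1
  exact h1

theorem hasse_inv (hh : ∀ n : ℕ, |(a n : ℝ)| ≤ n.divisors.card * √(n : ℝ)) {l : ℕ}
    (hl : l.Prime) (k : ℕ) :
    |(MU1.loc N a l k : ℝ)| ≤ ((k : ℝ) + 1) * ((l : ℝ) ^ k) ^ (1 / 2 : ℝ) := by
  have hl0 : (0 : ℝ) < l := by exact_mod_cast hl.pos
  match k with
  | 0 => simp [MU1.loc]
  | 1 =>
    have := hasse_local hh hl 1
    simpa [MU1.loc] using this
  | 2 =>
    have h1 : ((l : ℝ) ^ 2) ^ (1 / 2 : ℝ) = l := by
      rw [← Real.sqrt_eq_rpow, Real.sqrt_sq hl0.le]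
    have h2 : |(MU1.loc N a l 2 : ℝ)| ≤ l := by
      by_cases hlN : l ∣ N
      · simp [MU1.loc, hlN]
      · simp [MU1.loc, hlN]
    rw [h1]
    push_cast
    linarith
  | k + 3 =>
    simp only [MU1.loc, Int.cast_zero, abs_zero]
    positivity

/-- **Bounds for the coefficients and their Dirichlet inverse.** -/
theorem coef66 (ha0 : a 0 = 0) (ha1 : a 1 = 1)
    (hgood : ∀ l : ℕ, l.Prime → ¬ l ∣ N → ∀ n : ℕ,
      a (l * n) + (if l ∣ n then (l : ℤ) * a (n / l) else 0) = a l * a n)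
    (hbad : ∀ l : ℕ, l.Prime → l ∣ N → |a l| ≤ 1 ∧ ∀ n : ℕ, a (l * n) = a l * a n)
    (hh : ∀ n : ℕ, |(a n : ℝ)| ≤ n.divisors.card * √(n : ℝ)) :
    ∃ (h : ℕ → ℤ) (A : ℝ), MU71.CoefData a h A (49 / 100) := by
  obtain ⟨A, hA1, hA⟩ := MU74.divisor_bound (ε := 1 / 100) (by norm_num) (by norm_num)
  have hH := MU74.hr_of hgood hbad
  have key : ∀ x : ℝ, ∀ m : ℕ, 1 ≤ m → x ≤ m.divisors.card * (m : ℝ) ^ (1 / 2 : ℝ) →
      x ≤ A * (m : ℝ) ^ (1 - 49 / 100 : ℝ) := by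
    intro x m hm h1
    have hm0 : (0 : ℝ) < m := by exact_mod_cast hm
    calc x ≤ m.divisors.card * (m : ℝ) ^ (1 / 2 : ℝ) := h1
      _ ≤ (A * (m : ℝ) ^ (1 / 100 : ℝ)) * (m : ℝ) ^ (1 / 2 : ℝ) := by
          gcongr
          exact hA m hm
      _ = A * (m : ℝ) ^ (1 / 100 + 1 / 2 : ℝ) := by
          rw [Real.rpow_add hm0]
          ring
      _ = A * (m : ℝ) ^ (1 - 49 / 100 : ℝ) := by norm_num
  refine ⟨fun n => MU1.inv N a n, A, ?_⟩
  constructor
  · norm_num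
  · norm_num
  · exact hA1
  · exact ha0
  · intro m hm
    refine key _ m hm ?_
    have := hh m
    rwa [Real.sqrt_eq_rpow] at this
  · intro m hm
    refine key _ m hm ?_
    exact MU74.mult_div_le (MU1.inv_mult N a) (fun l hl k _ => by
      rw [MU1.inv_prime_pow N a hl]
      exact hasse_inv hh hl k) (by omega)
  · intro x hx
    have hx1 : (1 : ℝ) ≤ x := by exact_mod_cast hx
    have h1 := hA x hx
    refine h1.trans ?_
    have h2 : (x : ℝ) ^ (1 / 100 : ℝ) ≤ (x : ℝ) ^ (49 / 100 / 2 : ℝ) :=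
      Real.rpow_le_rpow_of_exponent_le hx1 (by norm_num)
    exact mul_le_mul_of_nonneg_left h2 (by linarith)
  · intro x hx
    have h := MU1.conv_eq_one ha0 ha1 hH
    have h2 : (MU1.inv N a * MU1.af a ha0) x = (1 : ArithmeticFunction ℤ) x := by rw [h]
    rw [ArithmeticFunction.mul_apply,
      Nat.sum_divisorsAntidiagonal (fun x y => MU1.inv N a x * MU1.af a ha0 y),
      ArithmeticFunction.one_apply] at h2
    exact h2

end Pool.Agent.MU66
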