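import Pool.Agent.MU1.Final
import Pool.Agent.MuOne.Ana2

/-!
# The determinant inequality for all large primes, from the non-vanishing, explicit exponent
-/

set_option autoImplicit false

open Finset CongruenceSubgroup
open Pool.Agent.MZ Pool.Agent.MZ.Per
open scoped OnePoint MatrixGroups

namespace Pool.Agent.MU66

open Pool.Agent.MU71

open Classical in
theorem final66 {N : ℕ} [NeZero N] (f : CuspForm (Gamma0 N) 2) {a : ℕ → ℤ}
    (ha : ∀ n, (UpperHalfPlane.qExpansion 1 f).coeff n = a n) (ha1 : a 1 = 1)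
    (hH : HeckeRel N a) {Ω : ℝ} (hΩ : Ω ≠ 0) (q : ℚ) (hq : q ≠ 0)
    (hper : {r : ℝ | ∃ γ ∈ Gamma1 N, r = (period f γ).re} =
      {r : ℝ | ∃ k : ℤ, r = k * (q * Ω)})
    (m : ℕ) (hm : 1 ≤ m)
    (hnv : ∃ p₀ : ℕ, ∀ (p : ℕ) [Fact p.Prime], p₀ ≤ p →
      ∀ w : (ZMod (p ^ (m + 1)))ˣ → ℝ, (∀ ζ, w (-ζ) = w ζ) →
      (∃ c : ℝ, ∀ b : (ZMod (p ^ (m + 1)))ˣ,
        ∑ ζ ∈ univ.filter (fun ζ : (ZMod (p ^ (m + 1)))ˣ => ζ ^ (p - 1) = 1),
        w ζ * S f (((((ζ * b : (ZMod (p ^ (m + 1)))ˣ) : ZMod (p ^ (m + 1))).val : ℚ) /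
          ((p ^ (m + 1) : ℕ) : ℚ) : ℚ) : OnePoint ℚ) = c) →
      ∀ ζ, ζ ^ (p - 1) = 1 → w ζ = 0) :
    ∃ (C : ℝ) (p₁ : ℕ), 0 < C ∧ ∀ (p : ℕ) [Fact p.Prime], p₁ ≤ p → ¬ (p : ℤ) ∣ a p →
      ∃ α : ℤ_[p]ˣ, (α : ℤ_[p]) ^ 2 - (a p : ℤ_[p]) * α + p = 0 ∧
        ∃ L : DirichletCharacter ℤ_[p] p → PowerSeries ℤ_[p],
          (∀ ψ : DirichletCharacter ℤ_[p] p, ψ (-1) = 1 →
            IsMSDBr p a Ω α ψ ((L ψ).map (algebraMap ℤ_[p] ℚ_[p])) ∧
            ∀ L', IsMSDBr p a Ω α ψ L' → L' = (L ψ).map (algebraMap ℤ_[p] ℚ_[p])) ∧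
          ∀ K : Subgroup (ZMod p)ˣ, -1 ∈ K → ∀ e : DirichletCharacter ℤ_[p] p → ℕ,
            (∀ ψ : DirichletCharacter ℤ_[p] p, (∀ k ∈ K, ψ (k : ZMod p) = 1) →
              L ψ ∈ Ideal.span {(p : PowerSeries ℤ_[p]) ^ e ψ,
                (1 + PowerSeries.X) ^ (p ^ m) - 1}) →
            (p : ℝ) ^ (∑ ψ ∈ (Finset.univ : Finset (DirichletCharacter ℤ_[p] p)).filter
              (fun ψ => ∀ k ∈ K, ψ (k : ZMod p) = 1), e ψ) ≤
              (C * p * Real.log p / Real.sqrt K.index) ^ K.index := by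
  have _ := hm
  obtain ⟨p₀, hnv⟩ := hnv
  obtain ⟨C₁, hC₁, hlog⟩ := Pool.Agent.MuOne.log_bound f
  have hqR : (q : ℝ) ≠ 0 := by exact_mod_cast hq
  have hqΩ : (q : ℝ) * Ω ≠ 0 := mul_ne_zero hqR hΩ
  refine ⟨2 * C₁ * (m + 2) / |(q : ℝ) * Ω|, p₀ + N + 4 + q.num.natAbs + q.den, ?_, ?_⟩
  · have := abs_pos.2 hqΩ
    positivity
  intro p hp hpp₁ hord
  have hp2 : p ≠ 2 := by omega
  have hN0 : N ≠ 0 := NeZero.ne N
  have hpN : ¬ p ∣ N := by
    intro h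
    have := Nat.le_of_dvd (Nat.pos_of_ne_zero hN0) h
    omega
  obtain ⟨α, hα, L₁, hL₁, -⟩ := mainBr hN0 hp2 hpN f ha ha1 hH hord hqΩ hper
  refine ⟨α, hα, ?_⟩
  -- `q` is a `p`-adic unit
  have hqn : ‖(q : ℚ_[p])‖ = 1 := by
    have h1 : ‖(q.num : ℚ_[p])‖ = 1 := by
      rw [Padic.norm_intCast_eq_one_iff, Int.isCoprime_iff_gcd_eq_one, Int.gcd_comm]
      rw [← Int.isCoprime_iff_gcd_eq_one, Prime.coprime_iff_not_dvd (Nat.prime_iff_prime_int.1 hp.out)]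
      intro h
      have h2 := Int.natAbs_dvd_natAbs.2 h
      have h3 := Nat.le_of_dvd (Int.natAbs_pos.2 (Rat.num_ne_zero.2 hq)) h2
      rw [Int.natAbs_natCast] at h3
      omega
    have h2 : ‖(q.den : ℚ_[p])‖ = 1 := by
      rw [Padic.norm_natCast_eq_one_iff, Nat.Prime.coprime_iff_not_dvd hp.out]
      intro h
      have h3 := Nat.le_of_dvd q.den_pos h
      omega
    have h3 : (q : ℚ_[p]) = (q.num : ℚ_[p]) / (q.den : ℚ_[p]) := by
      exact_mod_cast (congrArg (fun z : ℚ => (z : ℚ_[p])) (Rat.num_div_den q)).symm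
    rw [h3, norm_div, h1, h2, div_one]
  set qz : ℤ_[p] := ⟨(q : ℚ_[p]), hqn.le⟩ with hqz
  have hqu : IsUnit qz := PadicInt.isUnit_iff.2 hqn
  -- integral series
  have hLn : ∀ ψ : DirichletCharacter ℤ_[p] p, ∃ M : PowerSeries ℤ_[p],
      ψ (-1) = 1 → M.map (algebraMap ℤ_[p] ℚ_[p]) = L₁ ψ := by
    intro ψ
    by_cases hψ : ψ (-1) = 1
    · have hc : ∀ i : ℕ, ∃ z : ℤ_[p], (z : ℚ_[p]) = PowerSeries.coeff i (L₁ ψ) :=
        fun i => ⟨⟨PowerSeries.coeff i (L₁ ψ), (hL₁ ψ hψ).2.2 i⟩, rfl⟩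
      choose c hc using hc
      refine ⟨PowerSeries.mk c, fun _ => ?_⟩
      ext i
      rw [PowerSeries.coeff_map, PowerSeries.coeff_mk]
      exact hc i
    · exact ⟨0, fun h => absurd h hψ⟩
  choose M hM using hLn
  have hmap : ∀ ψ : DirichletCharacter ℤ_[p] p, ψ (-1) = 1 →
      (PowerSeries.C qz * M ψ).map (algebraMap ℤ_[p] ℚ_[p]) =
        PowerSeries.C (q : ℚ_[p]) * L₁ ψ := by
    intro ψ hψ
    rw [map_mul, PowerSeries.map_C, hM ψ hψ]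
    rfl
  refine ⟨fun ψ => PowerSeries.C qz * M ψ, ?_, ?_⟩
  · intro ψ hψ
    have h1 : IsMSDBr p a Ω α ψ ((PowerSeries.C qz * M ψ).map (algebraMap ℤ_[p] ℚ_[p])) := by
      rw [hmap ψ hψ]
      exact (hL₁ ψ hψ).1.scale
    refine ⟨h1, fun L' hL' => ?_⟩
    exact isMSDBr_unique hp2 hΩ hψ hL' h1
  · intro K hK e he
    have hB : ∀ b : ℤ, ¬ (p : ℤ) ∣ b →
        |S f (((b : ℚ) / (p : ℚ) ^ (m + 1) : ℚ) : OnePoint ℚ)| ≤
          C₁ * (1 + Real.log ((p ^ (m + 1) : ℕ) : ℝ)) := by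
      intro b hb
      have hpp : Prime ((p : ℕ) : ℤ) := Nat.prime_iff_prime_int.1 hp.out
      have h1 := hlog b (p ^ (m + 1)) (pow_pos hp.out.pos _) (by
        push_cast
        exact (((Prime.coprime_iff_not_dvd hpp).2 hb).symm).pow_right)
        (Nat.Coprime.pow_left _ ((Nat.Prime.coprime_iff_not_dvd hp.out).2 hpN))
      push_cast at h1 ⊢
      exact (Complex.abs_re_le_norm _).trans h1
    have hmem : ∀ ψ : DirichletCharacter ℤ_[p] p, (∀ k ∈ K, ψ (k : ZMod p) = 1) →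
        M ψ ∈ Ideal.span {(p : PowerSeries ℤ_[p]) ^ e ψ,
          (1 + PowerSeries.X) ^ (p ^ m) - 1} := by
      intro ψ hψ
      obtain ⟨v, hv⟩ := hqu
      have h1 := Ideal.mul_mem_left _ (PowerSeries.C ((v⁻¹ : ℤ_[p]ˣ) : ℤ_[p])) (he ψ hψ)
      rw [← hv, ← mul_assoc, ← map_mul, Units.inv_mul, map_one, one_mul] at h1
      exact h1
    have h1 := assemble hp2 hpN f ha ha1 hH hqΩ hper hα m (hnv p (by omega)) _ hB K hK M
      (fun ψ hψ => by rw [hM ψ hψ]; exact (hL₁ ψ hψ).1) e hmem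
    refine h1.trans ?_
    have hp1 : (1 : ℝ) ≤ p := by exact_mod_cast hp.out.one_lt.le
    have hlogp : 1 ≤ Real.log p := by
      rw [Real.le_log_iff_exp_le (by positivity)]
      have h3 : (3 : ℝ) ≤ p := by exact_mod_cast (show 3 ≤ p by omega)
      exact (Real.exp_one_lt_d9.le.trans (by norm_num)).trans h3
    have hlog0 : 0 ≤ Real.log ((p ^ (m + 1) : ℕ) : ℝ) := Real.log_natCast_nonneg _
    have habs := abs_pos.2 hqΩ
    apply pow_le_pow_left₀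
    · apply mul_nonneg
      · exact div_nonneg (by linarith) (Real.sqrt_nonneg _)
      · positivity
    · have h4 : Real.log ((p ^ (m + 1) : ℕ) : ℝ) = (m + 1) * Real.log p := by
        push_cast
        rw [Real.log_pow]
        push_cast
        ring
      rw [h4]
      rw [div_mul_eq_mul_div]
      apply div_le_div_of_nonneg_right _ (Real.sqrt_nonneg _)
      have h5 : C₁ * (1 + ((m : ℝ) + 1) * Real.log p) ≤ C₁ * ((m + 2) * Real.log p) := by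
        apply mul_le_mul_of_nonneg_left _ hC₁.le
        nlinarith
      have h6 : ((p : ℝ) - 1) * (2 * (C₁ * (1 + ((m : ℝ) + 1) * Real.log p)) / |(q : ℝ) * Ω|) ≤
          (p : ℝ) * (2 * (C₁ * ((m + 2) * Real.log p)) / |(q : ℝ) * Ω|) := by
        apply mul_le_mul (by linarith) _ (by positivity) (by linarith)
        apply div_le_div_of_nonneg_right _ habs.le
        linarith
      refine h6.trans (le_of_eq ?_)
      field_simp

end Pool.Agent.MU66
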