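import Pool.Agent.MU71.Nonvanish

/-!
# The nonvanishing theorem with an explicit exponent
-/

set_option autoImplicit false

open Finset UpperHalfPlane CongruenceSubgroup
open Pool.Agent.MZ Pool.Agent.MZ.Per
open scoped MatrixGroups Real OnePoint

namespace Pool.Agent.MU66

open Pool.Agent.MU1 Pool.Agent.MU71

/-- the choice of the parameters -/
theorem param66 {A C : ℝ} (hA : 1 ≤ A) (hC : 0 < C) (ν : ℕ) (hν : ν = 21) :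
    ∃ p₀ : ℕ, ∀ p : ℕ, p₀ ≤ p → 2 ≤ p → ∃ (K : ℕ) (Y : ℝ), 1 ≤ K ∧ 0 < Y ∧
      ((p : ℝ) - 1) * (2 * π * A ^ 2 * (K : ℝ) ^ 3 * Y +
          A ^ 3 * (K : ℝ) ^ (-((49 / 100 : ℝ) / 2)) +
          A ^ 2 * K * ((p : ℝ) ^ (2 * ν - 1)) ^ (-(49 / 100 : ℝ)) *
            (1 + 1 / ((p : ℝ) ^ (2 * ν - 1) * Y))) +
        ((p : ℝ) - 1) * (A * K * ((C * (1 / (((p : ℝ) ^ (2 * ν)) ^ 2 * Y)) ^ (-(1 / 2 : ℝ))) *
          (2 * (p : ℝ) ^ ν) / (p : ℝ) ^ (2 * ν))) < 1 - 1 / (p : ℝ) := by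
  subst hν
  have hπ := Real.pi_pos
  have hA0 : 0 < A := by linarith
  set M : ℝ := 2 * π * A ^ 2 + A ^ 3 + 2 * A ^ 2 + 2 * A * C with hM
  have hM0 : 0 < M := by positivity
  refine ⟨⌈(2 * M) ^ (100 / 9 : ℝ)⌉₊ + 1, ?_⟩
  intro p hp hp2
  set P : ℝ := (p : ℝ) with hP
  have hPM : (2 * M) ^ (100 / 9 : ℝ) < P := by
    have h1 : (2 * M) ^ (100 / 9 : ℝ) ≤ ⌈(2 * M) ^ (100 / 9 : ℝ)⌉₊ := Nat.le_ceil _
    have h2 : ((⌈(2 * M) ^ (100 / 9 : ℝ)⌉₊ + 1 : ℕ) : ℝ) ≤ P := by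
      rw [hP]
      exact_mod_cast hp
    push_cast at h2
    linarith
  have hP2 : 2 ≤ P := by
    rw [hP]
    exact_mod_cast hp2
  have hP1 : 1 ≤ P := by linarith
  have hP0 : 0 < P := by linarith
  refine ⟨p ^ 5, 1 / (P ^ 42 * P ^ 13), Nat.one_le_pow _ _ (by omega), by positivity, ?_⟩
  have hKr : ((p ^ 5 : ℕ) : ℝ) = P ^ 5 := by rw [hP]; push_cast; rfl
  rw [hKr]
  have e0 : ∀ k : ℕ, P ^ k = P ^ (k : ℝ) := fun k => (Real.rpow_natCast P k).symm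
  set R : ℝ := P ^ (-(109 / 100) : ℝ) with hR
  have hR0 : 0 < R := Real.rpow_pos_of_pos hP0 _
  have hle : ∀ e : ℝ, e ≤ -(109 / 100) → P ^ e ≤ R := fun e he =>
    Real.rpow_le_rpow_of_exponent_le hP1 he
  -- (i)
  have t1 : 2 * π * A ^ 2 * (P ^ 5) ^ 3 * (1 / (P ^ 42 * P ^ 13)) ≤ 2 * π * A ^ 2 * R := by
    have e1 : (P ^ 5) ^ 3 * (1 / (P ^ 42 * P ^ 13)) = P ^ (-(40 : ℝ)) := by
      rw [Real.rpow_neg hP0.le]
      rw [show (40 : ℝ) = ((40 : ℕ) : ℝ) by norm_num, Real.rpow_natCast]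
      field_simp
    calc 2 * π * A ^ 2 * (P ^ 5) ^ 3 * (1 / (P ^ 42 * P ^ 13)) =
        2 * π * A ^ 2 * ((P ^ 5) ^ 3 * (1 / (P ^ 42 * P ^ 13))) := by ring
      _ = 2 * π * A ^ 2 * P ^ (-(40 : ℝ)) := by rw [e1]
      _ ≤ _ := mul_le_mul_of_nonneg_left (hle _ (by norm_num)) (by positivity)
  -- (ii)
  have t2 : A ^ 3 * (P ^ 5) ^ (-((49 / 100 : ℝ) / 2)) ≤ A ^ 3 * R := by
    apply mul_le_mul_of_nonneg_left _ (by positivity)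
    rw [e0 5, ← Real.rpow_mul hP0.le]
    apply hle
    norm_num
  -- (iii)
  have t3 : A ^ 2 * P ^ 5 * (P ^ (2 * 21 - 1)) ^ (-(49 / 100 : ℝ)) *
      (1 + 1 / (P ^ (2 * 21 - 1) * (1 / (P ^ 42 * P ^ 13)))) ≤ 2 * A ^ 2 * R := by
    have e1 : 1 / (P ^ (2 * 21 - 1) * (1 / (P ^ 42 * P ^ 13))) = P ^ 14 := by
      norm_num
      field_simp
    have e3 : (1 : ℝ) ≤ P ^ 14 := one_le_pow₀ hP1
    rw [e1]
    have e4 : P ^ 5 * (P ^ (2 * 21 - 1)) ^ (-(49 / 100 : ℝ)) * P ^ 14 = R := by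
      rw [e0 5, e0 (2 * 21 - 1), e0 14, ← Real.rpow_mul hP0.le, ← Real.rpow_add hP0,
        ← Real.rpow_add hP0, hR]
      norm_num
    have e5 : 0 < (P ^ (2 * 21 - 1)) ^ (-(49 / 100 : ℝ)) := by positivity
    calc A ^ 2 * P ^ 5 * (P ^ (2 * 21 - 1)) ^ (-(49 / 100 : ℝ)) * (1 + P ^ 14) ≤
        A ^ 2 * P ^ 5 * (P ^ (2 * 21 - 1)) ^ (-(49 / 100 : ℝ)) * (2 * P ^ 14) := by
          apply mul_le_mul_of_nonneg_left (by linarith) (by positivity)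
      _ = 2 * A ^ 2 * (P ^ 5 * (P ^ (2 * 21 - 1)) ^ (-(49 / 100 : ℝ)) * P ^ 14) := by ring
      _ = 2 * A ^ 2 * R := by rw [e4]
  -- (iv)
  have t4 : A * P ^ 5 * ((C * (1 / ((P ^ (2 * 21)) ^ 2 * (1 / (P ^ 42 * P ^ 13)))) ^
      (-(1 / 2 : ℝ))) * (2 * P ^ 21) / P ^ (2 * 21)) ≤ 2 * A * C * R := by
    have e1 : 1 / ((P ^ (2 * 21)) ^ 2 * (1 / (P ^ 42 * P ^ 13))) = P ^ (-(29 : ℝ)) := by
      rw [Real.rpow_neg hP0.le]
      rw [show (29 : ℝ) = ((29 : ℕ) : ℝ) by norm_num, Real.rpow_natCast]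
      norm_num
      field_simp
    have e2 : (P ^ (-(29 : ℝ))) ^ (-(1 / 2 : ℝ)) = P ^ (29 / 2 : ℝ) := by
      rw [← Real.rpow_mul hP0.le]
      norm_num
    have e3 : P ^ 5 * P ^ (29 / 2 : ℝ) * P ^ 21 / P ^ (2 * 21) = P ^ (-(3 / 2) : ℝ) := by
      rw [e0 5, e0 21, e0 (2 * 21), ← Real.rpow_add hP0, ← Real.rpow_add hP0,
        ← Real.rpow_sub hP0]
      norm_num
    rw [e1, e2]
    calc A * P ^ 5 * ((C * P ^ (29 / 2 : ℝ)) * (2 * P ^ 21) / P ^ (2 * 21)) =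
        2 * A * C * (P ^ 5 * P ^ (29 / 2 : ℝ) * P ^ 21 / P ^ (2 * 21)) := by ring
      _ = 2 * A * C * P ^ (-(3 / 2) : ℝ) := by rw [e3]
      _ ≤ _ := mul_le_mul_of_nonneg_left (hle _ (by norm_num)) (by positivity)
  have hPm : 0 ≤ P - 1 := by linarith
  have hsum : 2 * π * A ^ 2 * (P ^ 5) ^ 3 * (1 / (P ^ 42 * P ^ 13)) +
      A ^ 3 * (P ^ 5) ^ (-((49 / 100 : ℝ) / 2)) +
      A ^ 2 * P ^ 5 * (P ^ (2 * 21 - 1)) ^ (-(49 / 100 : ℝ)) *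
      (1 + 1 / (P ^ (2 * 21 - 1) * (1 / (P ^ 42 * P ^ 13)))) ≤
      2 * π * A ^ 2 * R + A ^ 3 * R + 2 * A ^ 2 * R := add_le_add (add_le_add t1 t2) t3
  have h1 := mul_le_mul_of_nonneg_left hsum hPm
  have h1' := mul_le_mul_of_nonneg_left t4 hPm
  have h2 : (P - 1) * (2 * π * A ^ 2 * R + A ^ 3 * R + 2 * A ^ 2 * R) +
      (P - 1) * (2 * A * C * R) = (P - 1) * (M * R) := by
    rw [hM]
    ring
  have h3 : (P - 1) * (M * R) ≤ M * P ^ (-(9 / 100) : ℝ) := by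
    have h4 : P * R = P ^ (-(9 / 100) : ℝ) := by
      rw [hR]
      nth_rewrite 1 [← Real.rpow_one P]
      rw [← Real.rpow_add hP0]
      norm_num
    calc (P - 1) * (M * R) ≤ P * (M * R) := mul_le_mul_of_nonneg_right (by linarith) (by positivity)
      _ = M * (P * R) := by ring
      _ = _ := by rw [h4]
  have h5 : M * P ^ (-(9 / 100) : ℝ) < 1 / 2 := by
    have h6 : 2 * M < P ^ (9 / 100 : ℝ) := by
      have h7 : (((2 * M) ^ (100 / 9 : ℝ)) ^ (9 / 100 : ℝ)) < P ^ (9 / 100 : ℝ) :=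
        Real.rpow_lt_rpow (by positivity) hPM (by norm_num)
      rwa [← Real.rpow_mul (by positivity), show (100 / 9 : ℝ) * (9 / 100) = 1 by norm_num,
        Real.rpow_one] at h7
    rw [Real.rpow_neg hP0.le, ← div_eq_mul_inv, div_lt_iff₀ (by positivity)]
    linarith
  have h8 : 1 / P ≤ 1 / 2 := one_div_le_one_div_of_le (by norm_num) hP2
  linarith

/-- **Nonvanishing.** -/
theorem nonv66 {N : ℕ} [NeZero N] (f : CuspForm (Gamma0 N) 2) {a h : ℕ → ℤ} {A : ℝ}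
    (ha : ∀ n, (qExpansion 1 f).coeff n = a n) (H : CoefData a h A (49 / 100)) (n : ℕ)
    (hn : n = 42) :
    ∃ p₀ : ℕ, ∀ (p : ℕ) [Fact p.Prime], p₀ ≤ p → ∀ w : (ZMod (p ^ n))ˣ → ℝ,
      (∀ ζ, w (-ζ) = w ζ) →
      (∃ c : ℝ, ∀ b : (ZMod (p ^ n))ˣ, ∑ ζ ∈ univ.filter (fun ζ : (ZMod (p ^ n))ˣ => ζ ^ (p - 1) = 1),
        w ζ * S f (((((ζ * b : (ZMod (p ^ n))ˣ) : ZMod (p ^ n)).val : ℚ) / ((p ^ n : ℕ) : ℚ) : ℚ) :
          OnePoint ℚ) = c) →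
      ∀ ζ, ζ ^ (p - 1) = 1 → w ζ = 0 := by
  obtain ⟨C, hC, hcore⟩ := cusp_core f ha H
  obtain ⟨ν, hν21⟩ : ∃ ν, ν = 21 := ⟨21, rfl⟩
  obtain ⟨p₀, hpar⟩ := param66 H.Aone hC ν hν21
  have hν : 1 ≤ ν := by omega
  obtain rfl : n = 2 * ν := by omega
  refine ⟨max p₀ (max 3 (N + 1)), ?_⟩
  intro p hpF hp w hweven hconst
  have hpp := hpF.out
  have hp1 : p₀ ≤ p := (le_max_left _ _).trans hp
  have hp2 : 3 ≤ p := (le_max_left 3 (N + 1)).trans ((le_max_right _ _).trans hp)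
  have hp3 : N + 1 ≤ p := (le_max_right 3 (N + 1)).trans ((le_max_right _ _).trans hp)
  have hpN : ¬ p ∣ N := by
    intro hd
    have := Nat.le_of_dvd (Nat.pos_of_ne_zero (NeZero.ne N)) hd
    omega
  obtain ⟨c, hc⟩ := hconst
  by_contra hcon
  push Not at hcon
  obtain ⟨ζ₁, hζ₁, hwζ₁⟩ := hcon
  have hmem1 : ζ₁ ∈ HH p (p ^ (2 * ν)) := by
    rw [HH, mem_filter]
    exact ⟨mem_univ _, hζ₁⟩
  obtain ⟨ζ₀, hζ₀, hmax⟩ := (HH p (p ^ (2 * ν))).exists_max_image (fun ζ => |w ζ|) ⟨ζ₁, hmem1⟩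
  have hw0 : w ζ₀ ≠ 0 := by
    intro h0
    have := hmax ζ₁ hmem1
    rw [h0, abs_zero] at this
    exact hwζ₁ (abs_nonpos_iff.1 this)
  have hζ₀' : ζ₀ ^ (p - 1) = 1 := by
    rw [HH, mem_filter] at hζ₀
    exact hζ₀.2
  have hmul : ∀ ζ ∈ HH p (p ^ (2 * ν)), ζ * ζ₀ ∈ HH p (p ^ (2 * ν)) := by
    intro ζ hζ
    rw [HH, mem_filter] at hζ ⊢
    exact ⟨mem_univ _, by rw [_root_.mul_pow, hζ.2, hζ₀', one_mul]⟩
  have hmul' : ∀ ζ ∈ HH p (p ^ (2 * ν)), ζ * ζ₀⁻¹ ∈ HH p (p ^ (2 * ν)) := by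
    intro ζ hζ
    rw [HH, mem_filter] at hζ ⊢
    exact ⟨mem_univ _, by rw [_root_.mul_pow, hζ.2, inv_pow, hζ₀', inv_one, one_mul]⟩
  obtain ⟨K, Y, hK, hY, hlt⟩ := hpar p hp1 (by omega)
  have h1 := hcore p hpp (by omega) hpN ν (p ^ (2 * ν)) hν rfl (fun ζ => w (ζ * ζ₀) / w ζ₀)
    (by simp only [one_mul]; exact div_self hw0)
    (by
      intro ζ hζ
      rw [abs_div, div_le_one (abs_pos.2 hw0)]
      exact hmax _ (hmul ζ hζ))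
    (by
      intro ζ
      simp only [neg_mul]
      rw [hweven])
    (c / w ζ₀)
    (by
      intro b
      have h2 := hc (ζ₀⁻¹ * b)
      rw [← h2, sum_div]
      refine sum_bij' (fun ζ _ => ζ * ζ₀) (fun ζ _ => ζ * ζ₀⁻¹) ?_ ?_ ?_ ?_ ?_
      · intro ζ hζ; exact hmul ζ hζ
      · intro ζ hζ; exact hmul' ζ hζ
      · intro ζ _; exact mul_inv_cancel_right ζ ζ₀
      · intro ζ _; exact inv_mul_cancel_right ζ ζ₀
      · intro ζ _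
        have e1 : ζ * ζ₀ * (ζ₀⁻¹ * b) = ζ * b := by
          rw [mul_assoc, mul_inv_cancel_left]
        rw [e1]
        ring)
    K hK Y hY
  push_cast at h1
  linarith

end Pool.Agent.MU66
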